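import Pool.Agent.H.MP_8704cc_co.N

namespace Pool.Agent.H.MP_8704cc_co

open Finset

variable {Q : Type*} [CommRing Q]

lemma ap_map {A B : Type*} (g : A → B) (F : ℕ → ℕ → ℕ → A) (S : Stk) :
    g (ap F S) = ap (fun n a b => g (F n a b)) S := by cases S <;> rfl

lemma Ms_add (N : ℕ) (q : Q) (F G : ℕ → ℕ → ℕ → Q) :
    Ms N q (fun n a b => F n a b + G n a b) = Ms N q F + Ms N q G := by
  rw [Ms, Ms, Ms, ← sum_add_distrib]
  refine sum_congr rfl fun S _ => ?_
  cases S <;> simp [ap, mul_add]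

lemma Ms_mul (N : ℕ) (q c : Q) (F : ℕ → ℕ → ℕ → Q) :
    Ms N q (fun n a b => c * F n a b) = c * Ms N q F := by
  rw [Ms, Ms, mul_sum]
  refine sum_congr rfl fun S _ => ?_
  cases S <;> simp only [ap] <;> ring

def cp (g : ℕ → Q) (n a b : ℕ) : Q := if a = n ∧ b = 0 then g n else 0
def Rs (s : Q) (n _a b : ℕ) : Q := ∑ j ∈ Icc b n, s ^ (j + 1)
def Ls (s : Q) (n a _b : ℕ) : Q := ∑ i ∈ range (a + 1), s ^ (n + 1 - i)
def Es (s : Q) (n _a _b : ℕ) : Q := s ^ (n + 1)
def Cs (s : Q) (n a b : ℕ) : Q :=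
  ∑ i ∈ range (a + 1), ∑ j ∈ Icc b n, if i ≤ j then s ^ (j + 1 - i) else 0

lemma geo (s : Q) (b k : ℕ) : (1 - s) * ∑ j ∈ Icc b (b + k), s ^ j = s ^ b - s ^ (b + k + 1) := by
  induction k with
  | zero => simp; ring
  | succ k ih => rw [← add_assoc, sum_Icc_succ_top (by omega), mul_add, ih]; ring

lemma Rs_eq (s : Q) (a b k : ℕ) : (1 - s) * Rs s (b + k) a b = s ^ (b + 1) - s ^ (b + k + 2) := by
  simp only [Rs, pow_succ, ← sum_mul]
  have := geo s b k
  rw [pow_succ] at this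
  linear_combination s * this

lemma Ls_eq (s : Q) (a b k : ℕ) : (1 - s) * Ls s (a + k) a b = s ^ (k + 1) - s ^ (a + k + 2) := by
  induction a generalizing k with
  | zero => simp [Ls]; ring
  | succ a ih =>
    have := ih (k + 1)
    simp only [Ls] at this ⊢
    rw [sum_range_succ, show a + 1 + k = a + (k + 1) by ring, mul_add, this,
      show a + (k + 1) + 1 - (a + 1) = k + 1 by omega]
    ring

lemma Cs_C (s : Q) (m : ℕ) :
    (1 - s) ^ 2 * Cs s m m 0 = s * (1 - s - s) + s * (1 - s) * m + s ^ 3 * s ^ m := by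
  have h1 : ∀ i ∈ range (m + 1), (1 - s) * (∑ j ∈ Icc 0 m, if i ≤ j then s ^ (j + 1 - i) else 0) =
      s - s * s ^ (m + 1 - i) := by
    intro i hi
    obtain ⟨k, rfl⟩ : ∃ k, m = i + k := ⟨m - i, by rw [mem_range] at hi; omega⟩
    rw [← sum_filter, show i + k + 1 - i = k + 1 by omega]
    have e : ∑ j ∈ (Icc 0 (i + k)).filter (fun j => i ≤ j), s ^ (j + 1 - i) = Rs s (0 + k) 0 0 := by
      refine sum_nbij' (fun j => j - i) (fun j => j + i) ?_ ?_ ?_ ?_ ?_ <;>
        simp only [mem_filter, mem_Icc] <;> intro j hj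
      any_goals omega
      congr 1; omega
    rw [e, Rs_eq]; ring
  have h2 := Ls_eq s m 0 0
  rw [pow_two, mul_assoc, Cs, mul_sum, sum_congr rfl h1, sum_sub_distrib, ← mul_sum]
  simp only [Ls, add_zero] at h2
  simp only [sum_const, card_range, nsmul_eq_mul]
  push_cast
  linear_combination (-s) * h2

lemma Cs_L (s : Q) (c k : ℕ) : (1 - s) * Cs s (c + 1 + k) 1 (c + 1) =
    (1 + s) * (s ^ (c + 1) - s ^ (c + 1 + k + 1)) := by
  have h1 := Rs_eq s 0 (c + 1) k
  have h2 := geo s (c + 1) k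
  simp only [Cs, sum_range_succ, range_zero, sum_empty, zero_add, Nat.zero_le, if_true,
    Nat.sub_zero, Nat.add_sub_cancel]
  rw [sum_congr rfl (g := fun j => s ^ j) (s₁ := Icc (c + 1) (c + 1 + k))
    (f := fun j => if 1 ≤ j then s ^ j else 0)
    (fun j hj => if_pos (by rw [mem_Icc] at hj; omega))]
  simp only [Rs] at h1
  linear_combination h1 + h2

lemma Cs_R (s : Q) (m e : ℕ) : (1 - s) * Cs s (m + (e + 1)) m (m + e) =
    (1 + s) * (s ^ (e + 1) - s ^ (m + (e + 1) + 1)) := by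
  have h1 := Ls_eq s m 0 (e + 1)
  have h2 := Ls_eq s m 0 e
  simp only [Ls] at h1 h2
  rw [Cs, sum_congr rfl (g := fun i => s ^ (m + e + 1 - i) + s ^ (m + (e + 1) + 1 - i))
    (fun i hi => by
      rw [mem_range] at hi
      rw [← add_assoc, sum_Icc_succ_top (by omega), Icc_self, sum_singleton, if_pos (by omega),
        if_pos (by omega)]), sum_add_distrib]
  linear_combination h1 + h2

section
variable {N : ℕ} {q : Q} (hq : q ^ (N + 1) = 0)
include hq

lemma master0 (s b0 b1 c0 c1 d : Q) (F : ℕ → ℕ → ℕ → Q)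
    (hC : ∀ m, F (m + 1) (m + 1) 0 = 0)
    (hL : ∀ c j, F (c + 1 + (j + 1)) 1 (c + 1) = s ^ (c + 1) * (b0 + b1 * s ^ (j + 1)))
    (hR : ∀ m e, F (m + 1 + (e + 1)) (m + 1) (m + 1 + e) = s ^ (e + 1) * (c0 + c1 * s ^ (m + 1)))
    (hE : ∀ k, F (k + 2) 1 (k + 1) = d * s ^ k) :
    (1 - q * s) ^ 2 * Ms N q F = q * s * (1 - q * s) * (b0 * Ms N q (Rs q) + b1 * Ms N q (Rs (q * s))
      + c0 * Ms N q (Ls q) + c1 * Ms N q (Ls (q * s))) +
      d * q ^ 2 * (Ms N q (Es (q * s)) + (1 - q * s)) := by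
  set μ := ∑ c ∈ range N, (q * s) ^ c with hμ
  have h0 : q * μ * (1 - q * s) = q := by
    rw [mul_assoc, hμ, mul_comm _ (1 - q * s), mul_neg_geom_sum, mul_pow]
    linear_combination (-s ^ N) * hq
  have h1 : ∑ j ∈ range N, q ^ (j + 1) * F (j + 1) 1 j = d * q ^ 2 * μ := by
    have : ∑ j ∈ range N, q ^ (j + 1) * F (j + 1) 1 j =
        ∑ j ∈ range (N + 1), q ^ (j + 1) * F (j + 1) 1 j := by
      rw [sum_range_succ, hq, zero_mul, add_zero]
    rw [this, sum_range_succ', hC 0, mul_zero, add_zero, hμ, mul_sum]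
    refine sum_congr rfl fun k _ => ?_
    rw [hE]; ring
  have h2 : Ms N q (Tr N q F) = Ms N q (fun n a b => (q * s * μ * b0) * Rs q n a b +
      ((q * s * μ * b1) * Rs (q * s) n a b + ((q * s * μ * c0) * Ls q n a b +
      ((q * s * μ * c1) * Ls (q * s) n a b + (d * q ^ 2 * μ * μ) * Es (q * s) n a b)))) := by
    refine Ms_congr fun n a b ha hb => ?_
    have e1 : ∀ c ∈ range N, (∑ j ∈ Icc b n, q ^ (c + 1 + (j + 1)) * F (c + 1 + (j + 1)) 1 (c + 1) +
        ∑ e ∈ range N, q ^ (c + 1 + (n + 1) + (e + 1)) *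
          F (c + 1 + (n + 1) + (e + 1)) 1 (c + 1 + (n + 1) + e)) =
        (q * s) ^ c * (q * s * (b0 * Rs q n a b + b1 * Rs (q * s) n a b) +
          d * q ^ 2 * μ * Es (q * s) n a b) := by
      intro c _
      rw [mul_add]
      congr 1
      · simp only [Rs, mul_sum, ← sum_add_distrib]
        refine sum_congr rfl fun j _ => ?_
        rw [hL]; ring
      · simp only [hμ, Es, mul_sum, sum_mul]
        refine sum_congr rfl fun e _ => ?_
        have := hE (c + n + 1 + e)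
        rw [show c + 1 + (n + 1) + (e + 1) = c + n + 1 + e + 2 by ring,
          show c + 1 + (n + 1) + e = c + n + 1 + e + 1 by ring, this]
        ring
    have e2 : ∀ i ∈ range (a + 1), (∑ j ∈ Icc b n,
        (if i ≤ j then q ^ (j + 1 - i) * F (j + 1 - i) (j + 1 - i) 0 else 0) +
        ∑ e ∈ range N, q ^ (n + 1 - i + (e + 1)) *
          F (n + 1 - i + (e + 1)) (n + 1 - i) (n + 1 - i + e)) =
        q * s * μ * c0 * q ^ (n + 1 - i) + q * s * μ * c1 * (q * s) ^ (n + 1 - i) := by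
      intro i hi
      rw [mem_range] at hi
      rw [sum_eq_zero (s := Icc b n) (fun j _ => by
        split_ifs with h
        · rw [show j + 1 - i = j - i + 1 by omega, hC, mul_zero]
        · rfl), zero_add, show n + 1 - i = n - i + 1 by omega]
      simp only [hμ, mul_sum, sum_mul, ← sum_add_distrib]
      refine sum_congr rfl fun e _ => ?_
      rw [hR]; ring
    rw [Tr, sum_congr rfl e1, sum_congr rfl e2, ← sum_mul, ← hμ, sum_add_distrib, ← mul_sum,
      ← mul_sum]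
    simp only [Ls]
    ring
  rw [peel N q hq, h1, h2]
  simp only [Ms_add, Ms_mul]
  linear_combination (d * q * (1 - q * s) + s * (1 - q * s) * (b0 * Ms N q (Rs q) +
    b1 * Ms N q (Rs (q * s)) + c0 * Ms N q (Ls q) + c1 * Ms N q (Ls (q * s))) +
    d * (q * μ * (1 - q * s) + q) * Ms N q (Es (q * s))) * h0

lemma master (s a0 a1 a2 b0 b1 c0 c1 d : Q) (F : ℕ → ℕ → ℕ → Q)
    (hC : ∀ m : ℕ, F (m + 1) (m + 1) 0 = a0 + a1 * ((m + 1 : ℕ) : Q) + a2 * s ^ (m + 1))
    (hL : ∀ c j, F (c + 1 + (j + 1)) 1 (c + 1) = s ^ (c + 1) * (b0 + b1 * s ^ (j + 1)))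
    (hR : ∀ m e, F (m + 1 + (e + 1)) (m + 1) (m + 1 + e) = s ^ (e + 1) * (c0 + c1 * s ^ (m + 1)))
    (hE : ∀ k, F (k + 2) 1 (k + 1) = d * s ^ k) :
    (1 - q * s) ^ 2 * Ms N q F = (1 - q * s) ^ 2 * (a0 * Ms N q (cp fun _ => 1) +
      a1 * Ms N q (cp fun n => (n : Q)) + a2 * Ms N q (cp fun n => s ^ n)) +
      q * s * (1 - q * s) * (b0 * Ms N q (Rs q) + b1 * Ms N q (Rs (q * s))
      + c0 * Ms N q (Ls q) + c1 * Ms N q (Ls (q * s))) +
      d * q ^ 2 * (Ms N q (Es (q * s)) + (1 - q * s)) := by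
  have := master0 hq s b0 b1 c0 c1 d (fun n a b => F n a b + ((-a0) * cp (fun _ => 1) n a b +
    ((-a1) * cp (fun n => (n : Q)) n a b + (-a2) * cp (fun n => s ^ n) n a b)))
    (fun m => by simp only [hC, cp, and_self, if_true]; ring)
    (fun c j => by simp [hL, cp]) (fun m e => by simp [hR, cp]) (fun k => by simp [hE, cp])
  simp only [Ms_add, Ms_mul] at this
  linear_combination this

lemma peelC (v : Q) : Ms N q (cp fun n => v ^ n) = q * v + Ms N q (Cs (q * v)) := by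
  rw [peel N q hq]
  congr 1
  · have : ∑ j ∈ range N, q ^ (j + 1) * cp (fun n => v ^ n) (j + 1) 1 j =
        ∑ j ∈ range (N + 1), q ^ (j + 1) * cp (fun n => v ^ n) (j + 1) 1 j := by
      rw [sum_range_succ, hq, zero_mul, add_zero]
    rw [this, sum_range_succ']
    simp [cp]
  · refine Ms_congr fun n a b ha hb => ?_
    rw [Tr, Cs, sum_eq_zero (s := range N) (fun c _ => by simp [cp]), zero_add]
    refine sum_congr rfl fun i _ => ?_
    rw [sum_eq_zero (s := range N) (fun c _ => by simp [cp]), add_zero]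
    simp [cp, mul_pow]

end

def Sys4 (q s C C1 Cd Cs B B1 Bs L L1 Ls E Es : Q) : Prop :=
  (1 - s) ^ 2 * (1 - q * s) ^ 2 * C = (1 - s) ^ 2 * (1 - q * s) ^ 2 * s +
    (1 - q * s) ^ 2 * s * ((1 - s) * (C1 + Cd) - s * C1 + s ^ 2 * Cs) +
    (1 - s) * (1 - q * s) * (1 + s) * q * s * (B1 - s * Bs + (L1 - s * Ls)) +
    (1 - s) ^ 2 * (1 + s) ^ 2 * q ^ 2 * s * (Es + (1 - q * s)) ∧
  (1 - s) * (1 - q * s) ^ 2 * B = (1 - q * s) ^ 2 * s * (C1 - s * Cs) +
    (1 - q * s) * q * s ^ 2 * (B1 - s * Bs) + (1 - s) * (1 - q * s) * (1 + s) * q * s * Ls +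
    (1 - s) * (1 + s) * q ^ 2 * s ^ 2 * (Es + (1 - q * s)) ∧
  (1 - s) * (1 - q * s) ^ 2 * L = (1 - q * s) ^ 2 * s * (C1 - s * Cs) +
    (1 - q * s) * q * s ^ 2 * (L1 - s * Ls) + (1 - s) * (1 - q * s) * (1 + s) * q * s * Bs +
    (1 - s) * (1 + s) * q ^ 2 * s ^ 2 * (Es + (1 - q * s)) ∧
  (1 - q * s) ^ 2 * E = s * ((1 - q * s) ^ 2 * Cs + (1 - q * s) * q * s * (Bs + Ls) +
    q ^ 2 * s ^ 2 * (Es + (1 - q * s)))

lemma sysQ {N : ℕ} {q : Q} (hq : q ^ (N + 1) = 0) (v : Q) :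
    Sys4 q (q * v) (Ms N q (cp fun n => v ^ n)) (Ms N q (cp fun _ => 1))
      (Ms N q (cp fun n => (n : Q))) (Ms N q (cp fun n => (q * v) ^ n))
      (Ms N q (Rs (q * v))) (Ms N q (Rs q)) (Ms N q (Rs (q * (q * v))))
      (Ms N q (Ls (q * v))) (Ms N q (Ls q)) (Ms N q (Ls (q * (q * v))))
      (Ms N q (Es (q * v))) (Ms N q (Es (q * (q * v)))) := by
  rw [peelC hq v]
  generalize q * v = s
  refine ⟨?_, ?_, ?_, ?_⟩
  · have := master hq s (s * (1 - s - s)) (s * (1 - s)) (s ^ 3) ((1 - s) * (1 + s))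
      (-((1 - s) * (1 + s) * s)) ((1 - s) * (1 + s)) (-((1 - s) * (1 + s) * s))
      ((1 - s) ^ 2 * s * (1 + s) ^ 2) (fun n a b => (1 - s) ^ 2 * Cs s n a b)
      (fun m => Cs_C s (m + 1))
      (fun c j => by linear_combination (1 - s) * Cs_L s c (j + 1))
      (fun m e => by linear_combination (1 - s) * Cs_R s (m + 1) e)
      (fun k => by linear_combination (1 - s) * Cs_L s k 1)
    rw [Ms_mul] at this
    linear_combination this
  · have := master hq s s 0 (-s ^ 2) s (-s ^ 2) 0 ((1 - s) * (1 + s))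
      ((1 - s) * (1 + s) * s ^ 2) (fun n a b => (1 - s) * Rs s n a b)
      (fun m => by have := Rs_eq s (m + 1) 0 (m + 1); rw [zero_add] at this; linear_combination this)
      (fun c j => by linear_combination Rs_eq s 1 (c + 1) (j + 1))
      (fun m e => by linear_combination Rs_eq s (m + 1) (m + 1 + e) 1)
      (fun k => by linear_combination Rs_eq s 1 (k + 1) 1)
    rw [Ms_mul] at this
    linear_combination this
  · have := master hq s s 0 (-s ^ 2) 0 ((1 - s) * (1 + s)) s (-s ^ 2)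
      ((1 - s) * (1 + s) * s ^ 2) (fun n a b => (1 - s) * Ls s n a b)
      (fun m => by linear_combination Ls_eq s (m + 1) 0 0)
      (fun c j => by
        have := Ls_eq s 1 (c + 1) (c + (j + 1))
        rw [show 1 + (c + (j + 1)) = c + 1 + (j + 1) by ring] at this
        linear_combination this)
      (fun m e => by linear_combination Ls_eq s (m + 1) (m + 1 + e) (e + 1))
      (fun k => by
        have := Ls_eq s 1 (k + 1) (k + 1)
        rw [show 1 + (k + 1) = k + 2 by ring] at this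
        linear_combination this)
    rw [Ms_mul] at this
    linear_combination this
  · have := master hq s 0 0 s 0 s 0 s (s ^ 3) (Es s)
      (fun m => by simp only [Es]; ring) (fun c j => by simp only [Es]; ring)
      (fun m e => by simp only [Es]; ring) (fun k => by simp only [Es]; ring)
    linear_combination this

end Pool.Agent.H.MP_8704cc_co
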