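import Mathlib

namespace Pool.Agent.H.MP_8704cc_co

open Finset

def adj (p q : ℤ × ℤ) : Prop := (p.1 - q.1).natAbs + (p.2 - q.2).natAbs = 1

def Conn (A : Finset (ℤ × ℤ)) : Prop :=
  ∀ p ∈ A, ∀ q ∈ A, Relation.ReflTransGen (fun x y => x ∈ A ∧ y ∈ A ∧ adj x y) p q

def DConv (A : Finset (ℤ × ℤ)) : Prop :=
  ∀ p ∈ A, ∀ q ∈ A, ∀ z : ℤ × ℤ, p.1 + p.2 = z.1 + z.2 → q.1 + q.2 = z.1 + z.2 →
    p.1 ≤ z.1 → z.1 ≤ q.1 → z ∈ A

noncomputable def cnt (n : ℕ) : ℕ :=
  Nat.card {O : Set (Finset (ℤ × ℤ)) // ∃ A : Finset (ℤ × ℤ), A.card = n ∧ Conn A ∧ DConv A ∧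
    O = {B | ∃ t : ℤ × ℤ, B = A.image (fun p => p + t)}}

abbrev Stk := List (ℤ × ℤ)

def al : Stk → ℤ
  | [] => 0
  | [x] => x.1 + 1
  | x :: y :: _ => if x.1 < y.1 then x.1 + 1 else min x.2 (y.2 + 1) + 1

def be : Stk → ℤ
  | [] => 0
  | [x] => x.2
  | x :: y :: _ => if y.2 + 1 < x.2 then x.2 else max x.1 y.1

def Ok : Stk → Prop
  | [] => False
  | [x] => x.1 = 0 ∧ 0 ≤ x.2
  | x :: y :: t => Ok (y :: t) ∧ x.1 ≤ x.2 ∧ x.1 ≤ al (y :: t) ∧ be (y :: t) ≤ x.2

lemma Ok.bd : ∀ {x : ℤ × ℤ} {t : Stk}, Ok (x :: t) →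
    x.1 ≤ x.2 ∧ x.1 + 1 ≤ al (x :: t) ∧ al (x :: t) ≤ x.2 + 1 ∧ x.1 ≤ be (x :: t) ∧
      be (x :: t) ≤ x.2
  | x, [], h => by simp only [Ok, al, be] at *; omega
  | x, y :: t, h => by
    have := Ok.bd h.1
    obtain ⟨-, h1, h2, h3⟩ := h
    simp only [al, be]
    split_ifs <;> omega

noncomputable def cells : Stk → Finset (ℤ × ℤ)
  | [] => ∅
  | x :: t => (Icc x.1 x.2).image (fun a => (a, (t.length : ℤ) - a)) ∪ cells t

lemma mem_cons {x : ℤ × ℤ} {t : Stk} {p : ℤ × ℤ} : p ∈ cells (x :: t) ↔
    (p.1 + p.2 = t.length ∧ x.1 ≤ p.1 ∧ p.1 ≤ x.2) ∨ p ∈ cells t := by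
  simp only [cells, mem_union, mem_image, mem_Icc]
  refine or_congr_left ⟨?_, fun h => ⟨p.1, h.2, Prod.ext rfl (by simp only; omega)⟩⟩
  rintro ⟨a, h, rfl⟩
  exact ⟨by simp, h⟩

lemma mem_one {x p : ℤ × ℤ} : p ∈ cells [x] ↔ p.1 + p.2 = 0 ∧ x.1 ≤ p.1 ∧ p.1 ≤ x.2 := by
  rw [mem_cons]; simp [cells]

lemma mem_lv : ∀ {t : Stk} {p : ℤ × ℤ}, p ∈ cells t → 0 ≤ p.1 + p.2 ∧ p.1 + p.2 < t.length
  | [], p, h => by simp [cells] at h
  | x :: t, p, h => by
    rcases mem_cons.1 h with h | h
    · simp only [List.length_cons]; omega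
    · have := mem_lv h
      simp only [List.length_cons]; omega

def area : Stk → ℕ
  | [] => 0
  | x :: t => (x.2 + 1 - x.1).toNat + area t

lemma card_cells : ∀ t : Stk, (cells t).card = area t
  | [] => rfl
  | x :: t => by
    rw [cells, area, card_union_of_disjoint, card_cells t, card_image_of_injective, Int.card_Icc]
    · intro a b h; exact (Prod.ext_iff.1 h).1
    · rw [disjoint_left]
      intro p h1 h2
      obtain ⟨a, -, rfl⟩ := mem_image.1 h1
      have := mem_lv h2
      simp only at this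
      omega

lemma dconv_cells : ∀ t : Stk, DConv (cells t)
  | [] => by simp [DConv, cells]
  | x :: t => by
    intro p hp q hq z h1 h2 h3 h4
    rw [mem_cons] at hp hq ⊢
    rcases hp with hp | hp <;> rcases hq with hq | hq
    · left; omega
    · have := mem_lv hq; omega
    · have := mem_lv hp; omega
    · exact Or.inr (dconv_cells t p hp q hq z h1 h2 h3 h4)

abbrev reach (A : Finset (ℤ × ℤ)) := Relation.ReflTransGen (fun x y => x ∈ A ∧ y ∈ A ∧ adj x y)

lemma reach_symm {A : Finset (ℤ × ℤ)} {p q : ℤ × ℤ} (h : reach A p q) : reach A q p := by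
  induction h with
  | refl => exact .refl
  | tail _ h2 ih => exact .head ⟨h2.2.1, h2.1, by have := h2.2.2; unfold adj at *; omega⟩ ih

lemma reach_mono {A B : Finset (ℤ × ℤ)} (hAB : A ⊆ B) {p q : ℤ × ℤ} (h : reach A p q) :
    reach B p q := by
  induction h with
  | refl => exact .refl
  | tail _ h2 ih => exact .tail ih ⟨hAB h2.1, hAB h2.2.1, h2.2.2⟩

lemma cut {A : Finset (ℤ × ℤ)} (X : ℤ × ℤ → Prop)
    (hX : ∀ p ∈ A, ∀ q ∈ A, adj p q → X p → X q) {p q : ℤ × ℤ} (h : reach A p q) (hp : X p) :
    X q := by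
  induction h with
  | refl => exact hp
  | tail _ h2 ih => exact hX _ h2.1 _ h2.2.1 h2.2.2 ih

def mn : Stk → ℤ × ℤ → Prop
  | [], _ => False
  | [_], _ => False
  | _ :: y :: t, p => p.1 + p.2 ≤ t.length ∨ (y.1 ≤ p.1 ∧ p.1 ≤ y.2 + 1)

def pt (k i : ℤ) : ℤ × ℤ := (i / 2, k + 1 - i % 2 - i / 2)

lemma zig (x y : ℤ × ℤ) (t : Stk) (i : ℤ) (h1 : max (2 * x.1 - 1) (2 * y.1) ≤ i) :
    i ≤ min (2 * x.2 + 1) (2 * y.2 + 2) →
      reach (cells (x :: y :: t)) (pt t.length (max (2 * x.1 - 1) (2 * y.1))) (pt t.length i) := by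
  have hm : ∀ j, max (2 * x.1 - 1) (2 * y.1) ≤ j → j ≤ min (2 * x.2 + 1) (2 * y.2 + 2) →
      pt t.length j ∈ cells (x :: y :: t) := by
    intro j g1 g2
    simp only [mem_cons, pt, List.length_cons]
    omega
  induction i, h1 using Int.leInduction with
  | base => exact fun _ => .refl
  | succ i hi ih =>
    intro h2
    refine .tail (ih (by omega)) ⟨hm _ hi (by omega), hm _ (by omega) h2, ?_⟩
    simp only [adj, pt]
    omega

lemma main_reach : ∀ {S : Stk}, Ok S → ∃ z, ∀ p ∈ cells S, mn S p → reach (cells S) z p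
  | [], h => h.elim
  | [_], _ => ⟨0, fun _ _ h => h.elim⟩
  | x :: y :: t, h => by
    obtain ⟨z, hz⟩ := main_reach h.1
    have b1 := h.1.bd
    obtain ⟨hy, h1, h2, h3⟩ := h
    refine ⟨pt t.length (max (2 * x.1 - 1) (2 * y.1)), fun p hp hm => ?_⟩
    have up : ∀ p : ℤ × ℤ, p.1 + p.2 = t.length → max y.1 (x.1 - 1) ≤ p.1 → p.1 ≤ min y.2 x.2 →
        reach (cells (x :: y :: t)) (pt t.length (max (2 * x.1 - 1) (2 * y.1))) p := by
      intro p g1 g2 g3
      have := zig x y t (2 * p.1 + 1) (by omega) (by omega)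
      rwa [show pt t.length (2 * p.1 + 1) = p from Prod.ext (by simp only [pt]; omega)
        (by simp only [pt]; omega)] at this
    rcases mem_cons.1 hp with g | g
    · simp only [mn, List.length_cons] at g hm
      have := zig x y t (2 * p.1) (by omega) (by omega)
      rwa [show pt t.length (2 * p.1) = p from Prod.ext (by simp only [pt]; omega)
        (by simp only [pt]; omega)] at this
    · match t, hy, hz, b1, h2, h3, up, g with
      | [], _, _, _, h2, h3, up, g =>
        rcases mem_cons.1 g with g | g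
        · simp only [al, be] at h2 h3
          exact up p g.1 (by omega) (by omega)
        · simp [cells] at g
      | w :: t, hy, hz, b1, h2, h3, up, g =>
        have b2 := hy.1.bd
        obtain ⟨-, k1, k2, k3⟩ := hy
        have hsub : cells (y :: w :: t) ⊆ cells (x :: y :: w :: t) := subset_union_right
        simp only [al, be] at h2 h3
        have hc := up (max (max y.1 (x.1 - 1)) w.1,
          ((w :: t).length : ℤ) - max (max y.1 (x.1 - 1)) w.1) (by simp) (le_max_left _ _)
          (by simp only; split_ifs at h2 h3 <;> omega)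
        have hc2 := hz (max (max y.1 (x.1 - 1)) w.1,
          ((w :: t).length : ℤ) - max (max y.1 (x.1 - 1)) w.1)
          (mem_cons.2 (Or.inl (by simp only; split_ifs at h2 h3 <;> omega)))
          (Or.inr (by simp only; split_ifs at h2 h3 <;> omega))
        by_cases hp' : mn (y :: w :: t) p
        · exact (hc.trans (reach_mono hsub (reach_symm hc2))).trans (reach_mono hsub (hz p g hp'))
        · simp only [mn] at hp'
          rcases mem_cons.1 g with g | g
          · exact up p g.1 (by split_ifs at h2 h3 <;> omega) (by split_ifs at h2 h3 <;> omega)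
          · have := mem_lv g
            simp only [List.length_cons] at this
            omega

def Cpl : Stk → Prop
  | [] => False
  | x :: t => al (x :: t) = x.2 + 1 ∧ be (x :: t) = x.1

lemma conn_of : ∀ {S : Stk}, Ok S → Cpl S → Conn (cells S)
  | [], h, _ => h.elim
  | [x], _, hc => by
    intro p hp q hq
    simp only [Cpl, al, be] at hc
    rw [mem_one] at hp hq
    rw [show p = q from Prod.ext (by omega) (by omega)]
  | x :: y :: t, h, hc => by
    obtain ⟨z, hz⟩ := main_reach h
    have b1 := h.1.bd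
    obtain ⟨-, h1, h2, h3⟩ := h
    simp only [Cpl, al, be] at hc
    have : ∀ p ∈ cells (x :: y :: t), mn (x :: y :: t) p := by
      intro p hp
      simp only [mn]
      rcases mem_cons.1 hp with g | g
      · split_ifs at hc <;> omega
      · have := mem_lv g
        simp only [List.length_cons] at this
        omega
    exact fun p hp q hq => (reach_symm (hz p hp (this p hp))).trans (hz q hq (this q hq))

def Wf : Stk → Prop
  | [] => False
  | [x] => x.1 = 0 ∧ 0 ≤ x.2
  | x :: y :: t => Wf (y :: t) ∧ x.1 ≤ x.2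

lemma Wf.le : ∀ {x : ℤ × ℤ} {t : Stk}, Wf (x :: t) → x.1 ≤ x.2
  | _, [], h => by simp only [Wf] at h; omega
  | _, _ :: _, h => h.2

lemma Ok.wf : ∀ {S : Stk}, Ok S → Wf S
  | [], h => h
  | [_], h => h
  | _ :: _ :: _, h => ⟨Ok.wf h.1, h.2.1⟩

lemma ok_of {A : Finset (ℤ × ℤ)} (hA : Conn A) : ∀ {S : Stk}, Wf S →
    (∀ p : ℤ × ℤ, p.1 + p.2 < S.length → (p ∈ A ↔ p ∈ cells S)) → Ok S
  | [], h, _ => h
  | [_], h, _ => h
  | x :: y :: t, h, hm => by
    have hy : Ok (y :: t) := ok_of hA h.1 (fun p hp => by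
      rw [hm p (by simp only [List.length_cons] at *; omega), mem_cons (t := y :: t)]
      exact or_iff_right (by omega))
    have b1 := hy.bd
    have hx := h.2
    have m1 : ∀ p ∈ A, p.1 + p.2 = t.length + 1 → x.1 ≤ p.1 ∧ p.1 ≤ x.2 := by
      intro p hp e
      rcases mem_cons.1 ((hm p (by simp only [List.length_cons]; omega)).1 hp) with g | g
      · exact g.2
      · have := mem_lv g
        simp only [List.length_cons] at this
        omega
    have m2 : ∀ p ∈ A, p.1 + p.2 = t.length → y.1 ≤ p.1 ∧ p.1 ≤ y.2 := by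
      intro p hp e
      rcases mem_cons.1 ((hm p (by simp only [List.length_cons]; omega)).1 hp) with g | g
      · simp only [List.length_cons] at g; omega
      · rcases mem_cons.1 g with g | g
        · exact g.2
        · have := mem_lv g
          omega
    have i1 : ((x.1, (t.length : ℤ) + 1 - x.1) : ℤ × ℤ) ∈ A :=
      (hm _ (by simp only [List.length_cons]; omega)).2
        (mem_cons.2 (Or.inl (by simp only [List.length_cons]; omega)))
    have i2 : ∀ a, y.1 ≤ a → a ≤ y.2 → ((a, (t.length : ℤ) - a) : ℤ × ℤ) ∈ A := fun a g1 g2 =>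
      (hm _ (by simp only [List.length_cons]; omega)).2
        (mem_cons.2 (Or.inr (mem_cons.2 (Or.inl (by simp only; omega)))))
    have iso : ∀ a, y.1 ≤ a → a ≤ y.2 →
        (∀ p ∈ A, p.1 + p.2 + 1 = t.length → p.1 ≠ a ∧ p.1 + 1 ≠ a) → x.1 ≤ a + 1 ∧ a ≤ x.2 := by
      intro a g1 g2 g3
      by_contra hc
      have := cut (fun p => p.1 = a ∧ p.1 + p.2 = t.length) (fun p _ q hq h1 h2 => by
        have e1 := m1 q hq
        have e2 := g3 q hq
        unfold adj at h1
        omega) (hA _ (i2 a g1 g2) _ i1) (by simp)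
      simp only at this
      omega
    refine ⟨hy, hx, ?_⟩
    match t, hy, b1, hm, m1, m2, i1, i2, iso with
    | [], _, b1, hm, _, _, _, _, iso =>
      have ne : ∀ a, ∀ p ∈ A, p.1 + p.2 + 1 = (([] : Stk).length : ℤ) → p.1 ≠ a ∧ p.1 + 1 ≠ a := by
        intro a p hp e
        have := mem_lv ((hm p (by simp only [List.length_cons, List.length_nil] at *; omega)).1 hp)
        simp only [List.length_nil] at e
        omega
      have e1 := iso y.1 le_rfl b1.1 (ne _)
      have e2 := iso y.2 b1.1 le_rfl (ne _)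
      simp only [al, be]
      omega
    | w :: t, hy, b1, hm, m1, m2, i1, i2, iso =>
      have b2 := hy.1.bd
      obtain ⟨-, k1, k2, k3⟩ := hy
      simp only [List.length_cons] at m1 m2 i1 i2 iso hm
      have m3 : ∀ p ∈ A, p.1 + p.2 = t.length → w.1 ≤ p.1 ∧ p.1 ≤ w.2 := by
        intro p hp e
        rcases mem_cons.1 ((hm p (by omega)).1 hp) with g | g
        · simp only [List.length_cons] at g; omega
        · rcases mem_cons.1 g with g | g
          · simp only [List.length_cons] at g; omega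
          · rcases mem_cons.1 g with g | g
            · exact g.2
            · have := mem_lv g
              omega
      have i3 : ((w.1, (t.length : ℤ) - w.1) : ℤ × ℤ) ∈ A := (hm _ (by omega)).2
        (mem_cons.2 (Or.inr (mem_cons.2 (Or.inr (mem_cons.2 (Or.inl (by simp only; omega)))))))
      simp only [al, be]
      constructor
      · split_ifs with g
        · exact (iso y.1 le_rfl k1 (fun p hp e => by have := m3 p hp (by omega); omega)).1
        · by_contra hc
          have := cut (fun p => p.1 + p.2 ≤ t.length ∨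
              (p.1 + p.2 = t.length + 1 ∧ p.1 ≤ min y.2 (w.2 + 1))) (fun p hp q hq h1 h2 => by
            have e1 := m1 q hq
            have e2 := m2 q hq
            have e3 := m3 p hp
            unfold adj at h1
            omega) (hA _ i3 _ i1) (by simp)
          simp only at this
          omega
      · split_ifs with g
        · exact (iso y.2 k1 le_rfl (fun p hp e => by have := m3 p hp (by omega); omega)).2
        · by_contra hc
          have := cut (fun p => p.1 + p.2 ≤ t.length ∨
              (p.1 + p.2 = t.length + 1 ∧ max y.1 w.1 ≤ p.1)) (fun p hp q hq h1 h2 => by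
            have e1 := m1 q hq
            have e2 := m2 q hq
            have e3 := m3 p hp
            unfold adj at h1
            omega) (hA _ i3 _ i1) (by simp)
          simp only at this
          omega

lemma cpl_of : ∀ {S : Stk}, Ok S → Conn (cells S) → Cpl S
  | [], h, _ => h
  | [x], h, hA => by
    simp only [Ok] at h
    have := cut (fun p => p.1 = x.1) (fun p hp q hq h1 h2 => by
        rw [mem_one] at hp hq
        unfold adj at h1
        omega) (hA (x.1, -x.1) (mem_cons.2 (Or.inl (by simp; omega))) (x.2, -x.2)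
          (mem_cons.2 (Or.inl (by simp; omega)))) rfl
    simp only [Cpl, al, be] at *
    omega
  | x :: y :: t, h, hA => by
    have b1 := h.1.bd
    obtain ⟨-, h1, h2, h3⟩ := h
    have iso : ∀ a, x.1 ≤ a → a ≤ x.2 → y.1 ≤ a ∧ a ≤ y.2 + 1 := by
      intro a g1 g2
      by_contra hc
      have := cut (fun p => p.1 = a ∧ p.1 + p.2 = t.length + 1) (fun p _ q hq h1 h2 => by
        unfold adj at h1
        rcases mem_cons.1 hq with g | g
        · simp only [List.length_cons] at g; omega
        · rcases mem_cons.1 g with g | g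
          · omega
          · have := mem_lv g
            omega) (hA (a, (t.length : ℤ) + 1 - a)
          (mem_cons.2 (Or.inl (by simp only [List.length_cons]; omega))) (y.1, t.length - y.1)
          (mem_cons.2 (Or.inr (mem_cons.2 (Or.inl (by simp only; omega)))))) (by simp)
      simp only at this
      omega
    have e1 := iso x.1 le_rfl h1
    have e2 := iso x.2 h1 le_rfl
    simp only [Cpl, al, be]
    split_ifs <;> omega

end Pool.Agent.H.MP_8704cc_co
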