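import Pool.Agent.H.MP_8704cc_co.G

namespace Pool.Agent.H.MP_8704cc_co

open Finset

lemma mem_tr {A : Finset (ℤ × ℤ)} {t p : ℤ × ℤ} : p ∈ A.image (fun p => p + t) ↔ p - t ∈ A := by
  rw [mem_image]
  exact ⟨fun ⟨a, h, e⟩ => by simpa [← e] using h, fun h => ⟨_, h, by simp⟩⟩

lemma conn_tr {A : Finset (ℤ × ℤ)} (h : Conn A) (t : ℤ × ℤ) : Conn (A.image (fun p => p + t)) := by
  intro p hp q hq
  obtain ⟨p, hp', rfl⟩ := mem_image.1 hp
  obtain ⟨q, hq', rfl⟩ := mem_image.1 hq
  have := h p hp' q hq'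
  clear hq hq'
  induction this with
  | refl => exact .refl
  | tail _ h2 ih =>
    refine .tail ih ⟨mem_image_of_mem _ h2.1, mem_image_of_mem _ h2.2.1, ?_⟩
    simpa [adj] using h2.2.2

lemma dconv_tr {A : Finset (ℤ × ℤ)} (h : DConv A) (t : ℤ × ℤ) :
    DConv (A.image (fun p => p + t)) := by
  intro p hp q hq z h1 h2 h3 h4
  rw [mem_tr] at *
  exact h _ hp _ hq _ (by simp; omega) (by simp; omega) (by simpa using h3) (by simpa using h4)

lemma layer {A : Finset (ℤ × ℤ)} (hD : DConv A) {k : ℤ} (h : ∃ p ∈ A, p.1 + p.2 = k) :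
    ∃ x : ℤ × ℤ, x.1 ≤ x.2 ∧ ∀ p : ℤ × ℤ, p.1 + p.2 = k → (p ∈ A ↔ x.1 ≤ p.1 ∧ p.1 ≤ x.2) := by
  have hne : (A.filter (fun p => p.1 + p.2 = k)).Nonempty := by
    obtain ⟨p, h1, h2⟩ := h
    exact ⟨p, mem_filter.2 ⟨h1, h2⟩⟩
  obtain ⟨a, ha, ha'⟩ := exists_min_image _ (fun p : ℤ × ℤ => p.1) hne
  obtain ⟨b, hb, hb'⟩ := exists_max_image _ (fun p : ℤ × ℤ => p.1) hne
  refine ⟨(a.1, b.1), ha' b hb, fun p hp => ⟨fun g => ⟨ha' p (mem_filter.2 ⟨g, hp⟩),
    hb' p (mem_filter.2 ⟨g, hp⟩)⟩, fun g => ?_⟩⟩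
  rw [mem_filter] at ha hb
  exact hD a ha.1 b hb.1 p (by omega) (by omega) g.1 g.2

lemma build {A : Finset (ℤ × ℤ)} (hD : DConv A) (h0 : ((0, 0) : ℤ × ℤ) ∈ A)
    (h1 : ∀ p ∈ A, p.1 + p.2 = 0 → 0 ≤ p.1) : ∀ h : ℕ,
    (∀ k : ℕ, k ≤ h → ∃ p ∈ A, p.1 + p.2 = k) → ∃ S : Stk, S.length = h + 1 ∧ Wf S ∧
      ∀ p : ℤ × ℤ, 0 ≤ p.1 + p.2 → p.1 + p.2 ≤ h → (p ∈ A ↔ p ∈ cells S)
  | 0, hk => by
    obtain ⟨x, g1, g2⟩ := layer hD (hk 0 le_rfl)
    have e1 := (g2 (0, 0) (by simp)).1 h0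
    have e2 := h1 _ ((g2 (x.1, -x.1) (by simp)).2 ⟨le_rfl, g1⟩) (by simp)
    refine ⟨[x], rfl, ⟨by simp only at e1 e2; omega, e1.2⟩, fun p g3 g4 => ?_⟩
    rw [mem_one, g2 p (by omega)]
    omega
  | h + 1, hk => by
    obtain ⟨S, g1, g2, g3⟩ := build hD h0 h1 h (fun k g => hk k (by omega))
    obtain ⟨x, g4, g5⟩ := layer hD (hk (h + 1) le_rfl)
    refine ⟨x :: S, by simp [g1], ?_, fun p g6 g7 => ?_⟩
    · match S, g2 with
      | y :: t, g2 => exact ⟨g2, g4⟩
    · rw [mem_cons, g1]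
      by_cases e : p.1 + p.2 = (h + 1 : ℕ)
      · rw [g5 p e]
        refine ⟨fun g => Or.inl ⟨e, g⟩, fun g => g.elim (·.2) fun g => ?_⟩
        have := mem_lv g
        omega
      · rw [g3 p g6 (by omega)]
        exact (or_iff_right (fun g => e g.1)).symm

lemma repr {A : Finset (ℤ × ℤ)} (hne : A.Nonempty) (hC : Conn A) (hD : DConv A) :
    ∃ (S : Stk) (t : ℤ × ℤ), Ok S ∧ Cpl S ∧ cells S = A.image (fun p => p + t) := by
  obtain ⟨a, ha, ha'⟩ := exists_min_image _ (fun p : ℤ × ℤ => p.1 + p.2) hne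
  obtain ⟨b, hb, hb'⟩ := exists_min_image (A.filter (fun p => p.1 + p.2 = a.1 + a.2))
    (fun p : ℤ × ℤ => p.1) ⟨a, mem_filter.2 ⟨ha, rfl⟩⟩
  obtain ⟨c, hc, hc'⟩ := exists_max_image _ (fun p : ℤ × ℤ => p.1 + p.2) hne
  rw [mem_filter] at hb
  have hC' := conn_tr hC (-b)
  have h0 : ((0, 0) : ℤ × ℤ) ∈ A.image (fun p => p + -b) := by
    exact mem_image.2 ⟨b, hb.1, by simp [Prod.ext_iff]⟩
  have hr : ∀ p ∈ A.image (fun p => p + -b),
      0 ≤ p.1 + p.2 ∧ p.1 + p.2 ≤ (c.1 + c.2 - (a.1 + a.2)).toNat := by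
    intro p hp
    rw [mem_tr] at hp
    have e1 := ha' _ hp
    have e2 := hc' _ hp
    simp at e1 e2
    omega
  obtain ⟨S, g1, g2, g3⟩ := build (dconv_tr hD (-b)) h0 (fun p hp e => by
      rw [mem_tr] at hp
      have := hb' _ (mem_filter.2 ⟨hp, by simp; omega⟩)
      simpa using this) (c.1 + c.2 - (a.1 + a.2)).toNat (fun k hk => by
      by_contra hn
      push Not at hn
      have e0 := hn _ h0
      have e1 := ha' _ hc
      have := cut (fun p => p.1 + p.2 < k) (fun p _ q hq h1 h2 => by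
        have := hn q hq
        unfold adj at h1
        omega) (hC' _ h0 (c + -b) (mem_image_of_mem _ hc)) (by simp at e0 ⊢; omega)
      simp at this
      omega)
  have e : cells S = A.image (fun p => p + -b) := by
    ext p
    refine ⟨fun g => ?_, fun g => (g3 p (hr p g).1 (hr p g).2).1 g⟩
    have := mem_lv g
    exact (g3 p this.1 (by omega)).2 g
  have hO : Ok S := ok_of hC' g2 (fun p _ => by rw [e])
  exact ⟨S, -b, hO, cpl_of hO (e ▸ hC'), e⟩

lemma Wf.all : ∀ {S : Stk}, Wf S → (∀ x ∈ S, x.1 ≤ x.2) ∧ ((0, 0) : ℤ × ℤ) ∈ cells S ∧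
    ∀ p ∈ cells S, p.1 + p.2 = 0 → 0 ≤ p.1
  | [], h => h.elim
  | [x], h => by
    simp only [Wf] at h
    refine ⟨by simp; omega, mem_one.2 (by simp; omega), fun p hp _ => ?_⟩
    rw [mem_one] at hp
    omega
  | x :: y :: t, h => by
    obtain ⟨h1, h2, h3⟩ := Wf.all h.1
    refine ⟨fun z hz => ?_, mem_cons.2 (Or.inr h2), fun p hp e => ?_⟩
    · rcases List.mem_cons.1 hz with rfl | hz
      · exact h.2
      · exact h1 z hz
    · rcases mem_cons.1 hp with g | g
      · simp only [List.length_cons] at g; omega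
      · exact h3 p g e

lemma top_mem (x : ℤ × ℤ) (t : Stk) {a : ℤ} (h1 : x.1 ≤ a) (h2 : a ≤ x.2) :
    ((a, (t.length : ℤ) - a) : ℤ × ℤ) ∈ cells (x :: t) := mem_cons.2 (Or.inl ⟨by simp, h1, h2⟩)

lemma cells_inj : ∀ {S S' : Stk}, (∀ x ∈ S, x.1 ≤ x.2) → (∀ x ∈ S', x.1 ≤ x.2) →
    cells S = cells S' → S = S'
  | [], [], _, _, _ => rfl
  | [], x :: t, _, h, e => by
    have := top_mem x t le_rfl (h x (by simp))
    rw [← e] at this; simp [cells] at this
  | x :: t, [], h, _, e => by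
    have := top_mem x t le_rfl (h x (by simp))
    rw [e] at this; simp [cells] at this
  | x :: t, y :: s, h, h', e => by
    have hx := h x (by simp)
    have hy := h' y (by simp)
    have a1 := top_mem x t le_rfl hx
    have a2 := top_mem x t hx le_rfl
    have a3 := top_mem y s le_rfl hy
    have a4 := top_mem y s hy le_rfl
    rw [e] at a1 a2
    rw [← e] at a3 a4
    have l1 := (mem_lv a1).2
    have l2 := (mem_lv a3).2
    simp only [List.length_cons] at l1 l2
    have hl : (t.length : ℤ) = s.length := by omega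
    have k : ∀ (z : ℤ × ℤ) (r : Stk) (a : ℤ), ((a, (r.length : ℤ) - a) : ℤ × ℤ) ∈ cells (z :: r) →
        z.1 ≤ a ∧ a ≤ z.2 := by
      intro z r a g
      rcases mem_cons.1 g with g | g
      · exact g.2
      · have := mem_lv g
        simp only at this
        omega
    rw [hl] at a1 a2
    rw [← hl] at a3 a4
    have b1 := k _ _ _ a1
    have b2 := k _ _ _ a2
    have b3 := k _ _ _ a3
    have b4 := k _ _ _ a4
    have e1 : x = y := Prod.ext (by omega) (by omega)
    have e2 : cells t = cells s := by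
      ext p
      have hi := Finset.ext_iff.1 e p
      rw [mem_cons, mem_cons] at hi
      constructor
      · intro g
        have := mem_lv g
        exact (hi.1 (Or.inr g)).resolve_left (by omega)
      · intro g
        have := mem_lv g
        exact (hi.2 (Or.inr g)).resolve_left (by omega)
    rw [e1, cells_inj (fun z hz => h z (by simp [hz])) (fun z hz => h' z (by simp [hz])) e2]

lemma Ok.abs : ∀ {x : ℤ × ℤ} {t : Stk}, Ok (x :: t) →
    -(area (x :: t) : ℤ) ≤ x.1 ∧ x.2 ≤ area (x :: t)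
  | x, [], h => by simp only [Ok, area] at *; omega
  | x, y :: t, h => by
    have h1 := Ok.abs h.1
    have h2 := h.1.bd
    obtain ⟨-, h3, h4, h5⟩ := h
    rw [area]
    omega

lemma fin_ok : ∀ n : ℕ, {S : Stk | Ok S ∧ area S ≤ n}.Finite
  | 0 => by
    refine Set.finite_empty.subset ?_
    rintro (_ | ⟨x, t⟩) ⟨h1, h2⟩
    · exact h1
    · have := h1.bd
      rw [area] at h2
      omega
  | n + 1 => by
    refine (Set.Finite.image2 List.cons
      (Set.finite_Icc ((-(n + 1 : ℤ), -(n + 1 : ℤ)) : ℤ × ℤ) ((n + 1 : ℤ), (n + 1 : ℤ)))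
      ((fin_ok n).insert [])).subset ?_
    rintro (_ | ⟨x, t⟩) ⟨h1, h2⟩
    · exact h1.elim
    · have e1 := h1.bd
      have e2 := h1.abs
      refine ⟨x, ⟨⟨by simp only; omega, by simp only; omega⟩,
        ⟨by simp only; omega, by simp only; omega⟩⟩, t, ?_, rfl⟩
      match t, h1, h2 with
      | [], _, _ => exact Or.inl rfl
      | y :: t, h1, h2 => exact Or.inr ⟨h1.1, by rw [area] at h2; omega⟩

noncomputable def V (n : ℕ) : Finset Stk := (fin_ok n).toFinset

lemma mem_V {n : ℕ} {S : Stk} : S ∈ V n ↔ Ok S ∧ area S ≤ n := by simp [V]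

open Classical in
lemma cnt_eq {n : ℕ} (hn : 1 ≤ n) :
    cnt n = ((V n).filter (fun S => Cpl S ∧ area S = n)).card := by
  rw [cnt, ← Nat.card_eq_finsetCard]
  symm
  refine Nat.card_eq_of_bijective (fun S => ⟨{B | ∃ t : ℤ × ℤ, B = (cells S.1).image
    (fun p => p + t)}, cells S.1, ?_, ?_, dconv_cells _, rfl⟩) ⟨?_, ?_⟩
  · rw [card_cells, (mem_filter.1 S.2).2.2]
  · exact conn_of (mem_V.1 (mem_filter.1 S.2).1).1 (mem_filter.1 S.2).2.1
  · rintro ⟨S, hS⟩ ⟨S', hS'⟩ e
    have w1 := (mem_V.1 (mem_filter.1 hS).1).1.wf.all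
    have w2 := (mem_V.1 (mem_filter.1 hS').1).1.wf.all
    have e1 := Set.ext_iff.1 (Subtype.ext_iff.1 e) (cells S)
    obtain ⟨t, ht⟩ := e1.1 ⟨0, by simp⟩
    have a1 := w1.2.1
    rw [ht, mem_tr] at a1
    have a2 : t ∈ cells S := by rw [ht, mem_tr, sub_self]; exact w2.2.1
    have b1 := (mem_lv a1).1
    have b2 := (mem_lv a2).1
    have b3 := w2.2.2 _ a1
    have b4 := w1.2.2 _ a2
    simp at b1 b3
    have : t = 0 := Prod.ext (by simp; omega) (by simp; omega)
    subst this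
    exact Subtype.ext (cells_inj w1.1 w2.1 (by simpa using ht))
  · rintro ⟨O, A, h1, h2, h3, rfl⟩
    obtain ⟨S, t, g1, g2, g3⟩ := repr (card_pos.1 (by omega)) h2 h3
    have ha : area S = n := by
      rw [← card_cells, g3, card_image_of_injective _ (add_left_injective t), h1]
    refine ⟨⟨S, mem_filter.2 ⟨mem_V.2 ⟨g1, ha.le⟩, g2, ha⟩⟩, Subtype.ext ?_⟩
    ext B
    simp only [Set.mem_ofPred_eq, g3, image_image]
    constructor
    · rintro ⟨s, rfl⟩
      exact ⟨t + s, by congr 1; ext1 p; simp [add_assoc]⟩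
    · rintro ⟨s, rfl⟩
      exact ⟨s - t, by congr 1; ext1 p; simp⟩

noncomputable def box (N : ℕ) : Stk → Finset (ℤ × ℤ)
  | [] => ∅
  | y :: t => (Icc (y.1 - N) (al (y :: t)) ×ˢ Icc (be (y :: t)) (y.2 + 1 + N)).filter
      (fun x => x.1 ≤ x.2)

lemma peel0 {M : Type*} [AddCommMonoid M] (N : ℕ) (f : Stk → M) (hf : ∀ S, N < area S → f S = 0) :
    ∑ S ∈ V N, f S = ∑ j ∈ range N, f [(0, (j : ℤ))] + ∑ S ∈ V N, ∑ x ∈ box N S, f (x :: S) := by
  classical
  rw [← sum_image (s := range N) (g := fun j : ℕ => [((0 : ℤ), (j : ℤ))]) (by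
      intro a _ b _ e; simpa using e), sum_sigma',
    ← sum_image (s := (V N).sigma (box N)) (g := fun a => a.2 :: a.1) (by
      rintro ⟨a, b⟩ _ ⟨c, d⟩ _ e
      simp only [List.cons.injEq] at e
      obtain ⟨rfl, rfl⟩ := e
      rfl), ← sum_union]
  · refine sum_subset ?_ ?_
    · intro S hS
      obtain ⟨h1, h2⟩ := mem_V.1 hS
      match S, h1, h2 with
      | [x], h1, h2 =>
        simp only [Ok, area] at h1 h2
        refine mem_union_left _ (mem_image.2 ⟨x.2.toNat, mem_range.2 (by omega), ?_⟩)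
        congr 1
        exact Prod.ext h1.1.symm (by simp only; omega)
      | x :: y :: t, h1, h2 =>
        have b1 := h1.1.bd
        rw [area] at h2
        refine mem_union_right _ (mem_image.2 ⟨⟨y :: t, x⟩, mem_sigma.2
          ⟨mem_V.2 ⟨h1.1, by simp only; omega⟩, ?_⟩, rfl⟩)
        obtain ⟨-, g1, g2, g3⟩ := h1
        simp only [box, mem_filter, mem_product, mem_Icc]
        omega
    · intro S hS hn
      refine hf S ?_
      by_contra hc
      refine hn (mem_V.2 ⟨?_, by omega⟩)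
      rcases mem_union.1 hS with g | g
      · obtain ⟨j, -, rfl⟩ := mem_image.1 g
        exact ⟨rfl, by simp⟩
      · obtain ⟨⟨S, x⟩, g1, rfl⟩ := mem_image.1 g
        obtain ⟨g2, g3⟩ := mem_sigma.1 g1
        match S, g2, g3 with
        | [], _, g3 => simp [box] at g3
        | y :: t, g2, g3 =>
          simp only [box, mem_filter, mem_product, mem_Icc] at g3
          exact ⟨(mem_V.1 g2).1, g3.2, g3.1.1.2, g3.1.2.1⟩
  · rw [disjoint_left]
    intro S h1 h2
    obtain ⟨j, -, rfl⟩ := mem_image.1 h1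
    obtain ⟨⟨S, x⟩, g1, e⟩ := mem_image.1 h2
    simp only [List.cons.injEq] at e
    have := (mem_V.1 (mem_sigma.1 g1).1).1
    rw [e.2] at this
    exact this

lemma sumL {M : Type*} [AddCommMonoid M] (f : ℤ → M) (c : ℤ) (N k : ℕ) :
    ∑ l ∈ Icc (c - N) (c + k), f l =
      ∑ a ∈ range N, f (c - (a + 1)) + ∑ i ∈ range (k + 1), f (c + i) := by
  rw [← sum_image (s := range N) (g := fun a : ℕ => c - (a + 1)) (by
      intro a _ b _ e; simp only at e; omega),
    ← sum_image (s := range (k + 1)) (g := fun a : ℕ => c + a) (by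
      intro a _ b _ e; simp only at e; omega), ← sum_union]
  · congr 1
    ext l
    simp only [mem_Icc, mem_union, mem_image, mem_range]
    constructor
    · intro h
      by_cases g : l < c
      · exact Or.inl ⟨(c - l - 1).toNat, by omega, by omega⟩
      · exact Or.inr ⟨(l - c).toNat, by omega, by omega⟩
    · rintro (⟨a, h, rfl⟩ | ⟨a, h, rfl⟩) <;> omega
  · simp only [disjoint_left, mem_image, mem_range]
    rintro l ⟨a, -, rfl⟩ ⟨b, -, e⟩
    omega

lemma sumR {M : Type*} [AddCommMonoid M] (f : ℤ → M) (c : ℤ) (N b n : ℕ) (h : b ≤ n) :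
    ∑ l ∈ Icc (c + b) (c + n + N), f l =
      ∑ j ∈ Icc b n, f (c + j) + ∑ e ∈ range N, f (c + n + (e + 1)) := by
  rw [← sum_image (s := range N) (g := fun a : ℕ => c + n + (a + 1)) (by
      intro a _ b _ e; simp only at e; omega),
    ← sum_image (s := Icc b n) (g := fun a : ℕ => c + a) (by
      intro a _ b _ e; simp only at e; omega), ← sum_union]
  · congr 1
    ext l
    simp only [mem_Icc, mem_union, mem_image, mem_range]
    constructor
    · intro h
      by_cases g : c + n < l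
      · exact Or.inr ⟨(l - c - n - 1).toNat, by omega, by omega⟩
      · exact Or.inl ⟨(l - c).toNat, by omega, by omega⟩
    · rintro (⟨a, h, rfl⟩ | ⟨a, h, rfl⟩) <;> omega
  · simp only [disjoint_left, mem_image, mem_range, mem_Icc]
    rintro l ⟨a, h, rfl⟩ ⟨b, -, e⟩
    omega

def ap {Q : Type*} (F : ℕ → ℕ → ℕ → Q) : Stk → Q
  | [] => F 0 0 0
  | y :: t => F (y.2 + 1 - y.1).toNat (al (y :: t) - y.1).toNat (be (y :: t) - y.1).toNat

variable {Q : Type*} [CommRing Q]

noncomputable def Ms (N : ℕ) (q : Q) (F : ℕ → ℕ → ℕ → Q) : Q := ∑ S ∈ V N, q ^ area S * ap F S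

lemma Ms_congr {N : ℕ} {q : Q} {F G : ℕ → ℕ → ℕ → Q}
    (h : ∀ n a b, a ≤ n → b < n → F n a b = G n a b) : Ms N q F = Ms N q G := by
  refine sum_congr rfl fun S hS => ?_
  match S, (mem_V.1 hS).1 with
  | y :: t, g =>
    have := g.bd
    simp only [ap]
    rw [h _ _ _ (by omega) (by omega)]

def Tr (N : ℕ) (q : Q) (F : ℕ → ℕ → ℕ → Q) (n a b : ℕ) : Q :=
  (∑ c ∈ range N, (∑ j ∈ Icc b n, q ^ (c + 1 + (j + 1)) * F (c + 1 + (j + 1)) 1 (c + 1) +
    ∑ e ∈ range N, q ^ (c + 1 + (n + 1) + (e + 1)) *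
      F (c + 1 + (n + 1) + (e + 1)) 1 (c + 1 + (n + 1) + e))) +
  ∑ i ∈ range (a + 1), (∑ j ∈ Icc b n,
      (if i ≤ j then q ^ (j + 1 - i) * F (j + 1 - i) (j + 1 - i) 0 else 0) +
    ∑ e ∈ range N, q ^ (n + 1 - i + (e + 1)) * F (n + 1 - i + (e + 1)) (n + 1 - i) (n + 1 - i + e))

lemma ap_eq (q : Q) (F : ℕ → ℕ → ℕ → Q) (x y : ℤ × ℤ) (t : Stk) (n a b : ℕ)
    (h1 : x.2 + 1 - x.1 = n) (h2 : al (x :: y :: t) - x.1 = a) (h3 : be (x :: y :: t) - x.1 = b) :
    q ^ area (x :: y :: t) * ap F (x :: y :: t) = q ^ area (y :: t) * (q ^ n * F n a b) := by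
  rw [area, ap, h1, h2, h3]
  simp only [Int.toNat_natCast]
  ring

lemma peel (N : ℕ) (q : Q) (hq : q ^ (N + 1) = 0) (F : ℕ → ℕ → ℕ → Q) :
    Ms N q F = ∑ j ∈ range N, q ^ (j + 1) * F (j + 1) 1 j + Ms N q (Tr N q F) := by
  rw [Ms, peel0 N (fun S => q ^ area S * ap F S) (fun S h => by
    rw [pow_eq_zero_of_le h hq, zero_mul])]
  refine congrArg₂ (· + ·) ?_ ?_
  · refine sum_congr rfl fun j _ => ?_
    simp [area, ap, al, be]
  · refine sum_congr rfl fun S hS => ?_
    match S, (mem_V.1 hS).1 with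
    | y :: t, g =>
      have b1 := g.bd
      obtain ⟨n, hn⟩ : ∃ n : ℕ, y.2 + 1 = y.1 + n := ⟨(y.2 + 1 - y.1).toNat, by omega⟩
      obtain ⟨a, ha⟩ : ∃ n : ℕ, al (y :: t) = y.1 + n := ⟨(al (y :: t) - y.1).toNat, by omega⟩
      obtain ⟨b, hb⟩ : ∃ n : ℕ, be (y :: t) = y.1 + n := ⟨(be (y :: t) - y.1).toNat, by omega⟩
      have e : ap (Tr N q F) (y :: t) = Tr N q F n a b := by
        rw [ap]; congr 1 <;> omega
      rw [e, box, sum_filter, sum_product, ha, hb, hn, sumL, Tr, mul_add, mul_sum, mul_sum]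
      congr 1
      · refine sum_congr rfl fun c _ => ?_
        rw [sumR _ _ _ _ _ (by omega), mul_add, mul_sum, mul_sum]
        congr 1
        · refine sum_congr rfl fun j hj => ?_
          rw [mem_Icc] at hj
          rw [if_pos (by simp only; omega)]
          exact ap_eq _ _ _ _ _ _ _ _ (by simp only; omega)
            (by simp only [al]; split_ifs <;> omega) (by simp only [be]; split_ifs <;> omega)
        · refine sum_congr rfl fun j _ => ?_
          rw [if_pos (by simp only; omega)]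
          exact ap_eq _ _ _ _ _ _ _ _ (by simp only; omega)
            (by simp only [al]; split_ifs <;> omega) (by simp only [be]; split_ifs <;> omega)
      · refine sum_congr rfl fun i hi => ?_
        rw [mem_range] at hi
        rw [sumR _ _ _ _ _ (by omega), mul_add, mul_sum, mul_sum]
        congr 1
        · refine sum_congr rfl fun j hj => ?_
          rw [mem_Icc] at hj
          by_cases hij : i ≤ j
          · rw [if_pos (by simp only; omega), if_pos hij]
            exact ap_eq _ _ _ _ _ _ _ _ (by simp only; omega)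
              (by simp only [al]; split_ifs <;> omega) (by simp only [be]; split_ifs <;> omega)
          · rw [if_neg (by simp only; omega), if_neg hij, mul_zero]
        · refine sum_congr rfl fun j _ => ?_
          rw [if_pos (by simp only; omega)]
          exact ap_eq _ _ _ _ _ _ _ _ (by simp only; omega)
            (by simp only [al]; split_ifs <;> omega) (by simp only [be]; split_ifs <;> omega)

end Pool.Agent.H.MP_8704cc_co
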