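import Pool.Agent.H.MP_8704cc_co.F

namespace Pool.Agent.H.MP_8704cc_co

open Finset PowerSeries

abbrev R := PowerSeries (Polynomial ℚ)

noncomputable def sg (f : R) : R :=
  PowerSeries.mk fun n => ∑ k ∈ range (n + 1), Polynomial.monomial k ((coeff (n - k) f).coeff k)

noncomputable def ev (f : R) : R := PowerSeries.mk fun n => Polynomial.C ((coeff n f).eval 1)

noncomputable def dv (f : R) : R :=
  PowerSeries.mk fun n => Polynomial.C ((Polynomial.derivative (coeff n f)).eval 1)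

def Sys (C B E : R) : Prop :=
  let q : R := X
  let s : R := X * PowerSeries.C Polynomial.X
  (1 - s) ^ 2 * (1 - q * s) ^ 2 * C = (1 - s) ^ 2 * (1 - q * s) ^ 2 * s +
    (1 - q * s) ^ 2 * s * ((1 - s) * (ev C + dv C) - s * ev C + s ^ 2 * sg C) +
    2 * (1 - s) * (1 - q * s) * (1 + s) * q * s * (ev B - s * sg B) +
    (1 - s) ^ 2 * (1 + s) ^ 2 * q ^ 2 * s * (sg E + 1 - q * s) ∧
  (1 - s) * (1 - q * s) ^ 2 * B = (1 - q * s) ^ 2 * s * (ev C - s * sg C) +
    (1 - q * s) * q * s ^ 2 * (ev B - s * sg B) + (1 - s) * (1 - q * s) * (1 + s) * q * s * sg B +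
    (1 - s) * (1 + s) * q ^ 2 * s ^ 2 * (sg E + 1 - q * s) ∧
  (1 - q * s) ^ 2 * E = s * ((1 - q * s) ^ 2 * sg C + 2 * (1 - q * s) * q * s * sg B +
    q ^ 2 * s ^ 2 * (sg E + 1 - q * s))

structure Good (τ : R → R) : Prop where
  add : ∀ f g, τ (f + g) = τ f + τ g
  mul : ∀ f, τ (X * f) = X * τ f

lemma Good.zero {τ} (h : Good τ) : τ 0 = 0 := by simpa using h.add 0 0

lemma Good.pw {τ} (h : Good τ) (k : ℕ) (f : R) : τ (X ^ k * f) = X ^ k * τ f := by
  induction k with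
  | zero => simp
  | succ k ih => rw [pow_succ', mul_assoc, h.mul, ih, mul_assoc]

lemma Good.sum {τ} (h : Good τ) {ι : Type*} (s : Finset ι) (f : ι → R) :
    τ (∑ i ∈ s, f i) = ∑ i ∈ s, τ (f i) :=
  map_sum (⟨⟨τ, h.zero⟩, h.add⟩ : R →+ R) f s

lemma Good.dif {τ} (h : Good τ) {k : ℕ} {f g : R} (e : X ^ k ∣ f - g) :
    ∃ d, τ f = τ g + X ^ k * d := by
  obtain ⟨d, hd⟩ := e
  exact ⟨τ d, by rw [← h.pw, ← h.add, ← hd]; simp⟩

lemma good_id : Good id := ⟨fun _ _ => rfl, fun _ => rfl⟩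

lemma good_sg : Good sg := by
  constructor
  · intro f g
    ext1 n
    simp [sg, sum_add_distrib]
  · intro f
    ext1 n
    cases n with
    | zero => simp [sg]
    | succ n =>
      rw [coeff_succ_X_mul, sg, sg, coeff_mk, coeff_mk, sum_range_succ]
      simp only [Nat.sub_self, coeff_zero_X_mul, Polynomial.coeff_zero, map_zero, add_zero]
      refine sum_congr rfl fun k hk => ?_
      rw [mem_range] at hk
      rw [show n + 1 - k = n - k + 1 by omega, coeff_succ_X_mul]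

lemma good_ev : Good ev := by
  constructor
  · intro f g
    ext1 n
    simp [ev]
  · intro f
    ext1 n
    cases n <;> simp [ev, coeff_succ_X_mul]

lemma good_dv : Good dv := by
  constructor
  · intro f g
    ext1 n
    simp [dv]
  · intro f
    ext1 n
    cases n <;> simp [dv, coeff_succ_X_mul]

noncomputable abbrev v : R := PowerSeries.C Polynomial.X

lemma sg_v (m : ℕ) : sg (v ^ m) = (X * v) ^ m := by
  ext1 n
  rw [mul_pow, ← map_pow, coeff_X_pow_mul', sg, coeff_mk, sum_range_succ, sum_eq_zero]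
  · simp only [Nat.sub_self, zero_add, coeff_C]
    by_cases h : n = m
    · simp [h, Polynomial.monomial_one_right_eq_X_pow]
    · split_ifs <;> first | omega | simp [h]
  · intro k hk
    rw [mem_range] at hk
    rw [coeff_C, if_neg (by omega)]
    simp

lemma ev_v (m : ℕ) : ev (v ^ m) = 1 := by
  ext1 n
  rw [← map_pow, ev, coeff_mk, coeff_C, coeff_one]
  split_ifs <;> simp

lemma dv_v (m : ℕ) : dv (v ^ m) = (m : R) := by
  ext1 n
  rw [← map_pow, dv, coeff_mk, coeff_C, ← map_natCast (PowerSeries.C (R := Polynomial ℚ)), coeff_C]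
  split_ifs <;> simp [Polynomial.derivative_X_pow]

lemma sg_s (m : ℕ) : sg ((X * v) ^ m) = (X * (X * v)) ^ m := by
  rw [mul_pow, good_sg.pw, sg_v, ← mul_pow]

lemma ev_s (m : ℕ) : ev ((X * v) ^ m) = X ^ m := by
  rw [mul_pow, good_ev.pw, ev_v, mul_one]

noncomputable def Mi (F : ℕ → ℕ → ℕ → R) : R := PowerSeries.mk fun k => coeff k (Ms k X F)

lemma Mi_dvd (F : ℕ → ℕ → ℕ → R) (N : ℕ) : X ^ (N + 1) ∣ Mi F - Ms N X F := by
  rw [X_pow_dvd_iff]
  intro m hm
  rw [map_sub, Mi, coeff_mk, sub_eq_zero, Ms, Ms, map_sum, map_sum]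
  refine sum_subset (fun S hS => mem_V.2 ⟨(mem_V.1 hS).1, (mem_V.1 hS).2.trans (by omega)⟩) ?_
  intro S h1 h2
  rw [coeff_X_pow_mul', if_neg (fun h => h2 (mem_V.2 ⟨(mem_V.1 h1).1, h⟩))]

lemma lift {Q : Type*} [CommRing Q] (π : R →+* Q) {N : ℕ} (hπ : π X ^ (N + 1) = 0) {τ : R → R}
    (h : Good τ) (F : ℕ → ℕ → ℕ → R) (G : ℕ → ℕ → ℕ → Q) (hG : ∀ n a b, π (τ (F n a b)) = G n a b) :
    π (τ (Mi F)) = Ms N (π X) G := by
  obtain ⟨d, hd⟩ := h.dif (Mi_dvd F N)
  rw [hd, map_add, map_mul, map_pow, hπ, zero_mul, add_zero, Ms, Ms, h.sum, map_sum]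
  refine sum_congr rfl fun S _ => ?_
  rw [h.pw, map_mul, map_pow, ap_map (fun x => π (τ x))]
  simp only [hG]

lemma eq_of_quot {f g : R} (h : ∀ N : ℕ, Ideal.Quotient.mk (Ideal.span {(X : R) ^ (N + 1)}) f =
    Ideal.Quotient.mk _ g) : f = g := by
  ext1 n
  have := X_pow_dvd_iff.1 (Ideal.mem_span_singleton.1 (Ideal.Quotient.eq.1 (h n))) n (by omega)
  rwa [map_sub, sub_eq_zero] at this

def S4 (C B L E : R) : Prop :=
  Sys4 X (X * v) C (ev C) (dv C) (sg C) B (ev B) (sg B) L (ev L) (sg L) E (sg E)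

noncomputable def C0 : R := Mi (cp fun n => v ^ n)
noncomputable def B0 : R := Mi (Rs (X * v))
noncomputable def L0 : R := Mi (Ls (X * v))
noncomputable def E0 : R := Mi (Es (X * v))

lemma quot_sys {Q : Type*} [CommRing Q] (π : R →+* Q) {N : ℕ} (hπ : π X ^ (N + 1) = 0) :
    Sys4 (π X) (π X * π v) (π C0) (π (ev C0)) (π (dv C0)) (π (sg C0)) (π B0) (π (ev B0))
      (π (sg B0)) (π L0) (π (ev L0)) (π (sg L0)) (π E0) (π (sg E0)) := by
  have hc : ∀ {τ}, Good τ → ∀ g : ℕ → Q, (∀ n, π (τ (v ^ n)) = g n) →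
      π (τ C0) = Ms N (π X) (cp g) := fun h g hg => lift π hπ h _ _ (fun n a b => by
    simp only [cp]
    split_ifs
    · exact hg n
    · rw [h.zero, map_zero])
  have hb : ∀ {τ}, Good τ → ∀ y : Q, (∀ n, π (τ ((X * v) ^ n)) = y ^ n) →
      π (τ B0) = Ms N (π X) (Rs y) ∧ π (τ L0) = Ms N (π X) (Ls y) ∧
        π (τ E0) = Ms N (π X) (Es y) := fun h y hy =>
    ⟨lift π hπ h _ _ (fun n a b => by simp only [Rs, h.sum, map_sum, hy]),
      lift π hπ h _ _ (fun n a b => by simp only [Ls, h.sum, map_sum, hy]),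
      lift π hπ h _ _ (fun n a b => by simp only [Es, hy])⟩
  have h1 := hb good_id (π X * π v) (fun n => by simp)
  have h2 := hb good_ev (π X) (fun n => by rw [ev_s, map_pow])
  have h3 := hb good_sg (π X * (π X * π v)) (fun n => by rw [sg_s]; simp)
  have h4 := hc good_id (fun n => π v ^ n) (fun n => by simp)
  simp only [id] at h1 h4
  rw [h1.1, h1.2.1, h1.2.2, h2.1, h2.2.1, h3.1, h3.2.1, h3.2.2, h4,
    hc good_ev (fun _ => 1) (fun n => by rw [ev_v, map_one]),
    hc good_dv (fun n => (n : Q)) (fun n => by rw [dv_v, map_natCast]),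
    hc good_sg (fun n => (π X * π v) ^ n) (fun n => by rw [sg_v]; simp)]
  exact sysQ hπ _

lemma s4_sol : S4 C0 B0 L0 E0 := by
  have h := fun N : ℕ => quot_sys (Ideal.Quotient.mk (Ideal.span {(X : R) ^ (N + 1)})) (N := N)
    (by rw [← map_pow, Ideal.Quotient.eq_zero_iff_mem]; exact Ideal.mem_span_singleton_self _)
  refine ⟨eq_of_quot fun N => ?_, eq_of_quot fun N => ?_, eq_of_quot fun N => ?_,
    eq_of_quot fun N => ?_⟩ <;> simp only [map_add, map_mul, map_sub, map_pow, map_one]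
  · exact (h N).1
  · exact (h N).2.1
  · exact (h N).2.2.1
  · exact (h N).2.2.2

lemma s4_uniq {C B L E C' B' L' E' : R} (h : S4 C B L E) (h' : S4 C' B' L' E') :
    C = C' ∧ B = B' ∧ L = L' ∧ E = E' := by
  have hu : IsUnit (1 - X * v : R) := isUnit_iff_constantCoeff.2 (by simp)
  have ht : IsUnit (1 - X * (X * v) : R) := isUnit_iff_constantCoeff.2 (by simp)
  have key : ∀ k : ℕ, X ^ k ∣ C - C' ∧ X ^ k ∣ B - B' ∧ X ^ k ∣ L - L' ∧ X ^ k ∣ E - E' := by
    intro k
    induction k with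
    | zero => simp
    | succ k ih =>
      obtain ⟨i1, i2, i3, i4⟩ := ih
      obtain ⟨c1, e1⟩ := good_ev.dif i1
      obtain ⟨c2, e2⟩ := good_dv.dif i1
      obtain ⟨c3, e3⟩ := good_sg.dif i1
      obtain ⟨b1, e4⟩ := good_ev.dif i2
      obtain ⟨b2, e5⟩ := good_sg.dif i2
      obtain ⟨l1, e6⟩ := good_ev.dif i3
      obtain ⟨l2, e7⟩ := good_sg.dif i3
      obtain ⟨d1, e8⟩ := good_sg.dif i4
      unfold S4 at h h'
      rw [e1, e2, e3, e4, e5, e6, e7, e8] at h
      obtain ⟨g1, g2, g3, g4⟩ := h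
      obtain ⟨k1, k2, k3, k4⟩ := h'
      refine ⟨((hu.pow 2).mul (ht.pow 2)).dvd_mul_left.1 ⟨v * (
          (1 - X * (X * v)) ^ 2 * ((1 - X * v) * (c1 + c2) - X * v * c1 + (X * v) ^ 2 * c3) +
          (1 - X * v) * (1 - X * (X * v)) * (1 + X * v) * X * (b1 - X * v * b2 + (l1 - X * v * l2)) +
          (1 - X * v) ^ 2 * (1 + X * v) ^ 2 * X ^ 2 * d1), by linear_combination g1 - k1⟩,
        (hu.mul (ht.pow 2)).dvd_mul_left.1 ⟨v * ((1 - X * (X * v)) ^ 2 * (c1 - X * v * c3) +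
          (1 - X * (X * v)) * X * (X * v) * (b1 - X * v * b2) +
          (1 - X * v) * (1 - X * (X * v)) * (1 + X * v) * X * l2 +
          (1 - X * v) * (1 + X * v) * X ^ 2 * (X * v) * d1), by linear_combination g2 - k2⟩,
        (hu.mul (ht.pow 2)).dvd_mul_left.1 ⟨v * ((1 - X * (X * v)) ^ 2 * (c1 - X * v * c3) +
          (1 - X * (X * v)) * X * (X * v) * (l1 - X * v * l2) +
          (1 - X * v) * (1 - X * (X * v)) * (1 + X * v) * X * b2 +
          (1 - X * v) * (1 + X * v) * X ^ 2 * (X * v) * d1), by linear_combination g3 - k3⟩,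
        (ht.pow 2).dvd_mul_left.1 ⟨v * ((1 - X * (X * v)) ^ 2 * c3 +
          (1 - X * (X * v)) * X * (X * v) * (b2 + l2) + X ^ 2 * (X * v) ^ 2 * d1),
          by linear_combination g4 - k4⟩⟩
  have fin : ∀ {f g : R}, (∀ k : ℕ, X ^ k ∣ f - g) → f = g := fun {f g} hk => by
    ext1 n
    have := X_pow_dvd_iff.1 (hk (n + 1)) n (by omega)
    rwa [map_sub, sub_eq_zero] at this
  exact ⟨fin fun k => (key k).1, fin fun k => (key k).2.1, fin fun k => (key k).2.2.1,
    fin fun k => (key k).2.2.2⟩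

lemma s4_swap {C B L E : R} (h : S4 C B L E) : S4 C L B E := by
  obtain ⟨g1, g2, g3, g4⟩ := h
  exact ⟨by linear_combination g1, g3, g2, by linear_combination g4⟩

lemma sys_iff {C B E : R} : Sys C B E ↔ S4 C B B E := by
  constructor
  · rintro ⟨g1, g2, g3⟩
    exact ⟨by linear_combination g1, by linear_combination g2, by linear_combination g2,
      by linear_combination g3⟩
  · rintro ⟨g1, g2, -, g3⟩
    exact ⟨by linear_combination g1, by linear_combination g2, by linear_combination g3⟩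

lemma sys_sol : Sys C0 B0 E0 := by
  have h := s4_sol
  rw [← (s4_uniq h (s4_swap h)).2.1] at h
  exact sys_iff.2 h

lemma C0_cnt {n : ℕ} (hn : 1 ≤ n) : (coeff n C0).eval 1 = (cnt n : ℚ) := by
  classical
  rw [cnt_eq hn, C0, Mi, coeff_mk, Ms, map_sum, Polynomial.eval_finsetSum, card_filter]
  push_cast
  refine sum_congr rfl fun S hS => ?_
  obtain ⟨h1, h2⟩ := mem_V.1 hS
  match S, h1, h2 with
  | y :: t, h1, h2 =>
    have b := h1.bd
    rw [coeff_X_pow_mul', if_pos h2, ap, cp]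
    by_cases hc : Cpl (y :: t)
    · have hc' := hc
      simp only [Cpl] at hc'
      rw [if_pos (by omega), ← map_pow, coeff_C]
      by_cases e : area (y :: t) = n
      · rw [if_pos (by omega), if_pos ⟨hc, e⟩]; simp
      · rw [if_neg (by omega), if_neg (fun g => e g.2)]; simp
    · rw [if_neg (fun g => hc (by simp only [Cpl]; omega)), if_neg (fun g => hc g.1)]
      simp

end Pool.Agent.H.MP_8704cc_co
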